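import Mathlib

set_option autoImplicit false

namespace Pool.Agent.Lib.MP_495f0d_co

/-- The predicate has period `p` from `N` on. -/
def Per (S : ℕ → Prop) (p N : ℕ) : Prop := ∀ m, N ≤ m → (S (m + p) ↔ S m)

/-- The predicate is ultimately periodic. -/
def UP (S : ℕ → Prop) : Prop := ∃ p, 0 < p ∧ ∃ N, Per S p N

theorem Per.mul {S : ℕ → Prop} {p N : ℕ} (h : Per S p N) (k : ℕ) : Per S (k * p) N := by
  intro m hm
  induction k with
  | zero => simp
  | succ k ih =>
    have e : m + (k + 1) * p = (m + k * p) + p := by ring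
    rw [e, h _ (by omega), ih]

theorem Per.mono {S : ℕ → Prop} {p N N' : ℕ} (h : Per S p N) (hN : N ≤ N') : Per S p N' :=
  fun m hm => h m (hN.trans hm)

theorem UP.common {S T : ℕ → Prop} (hS : UP S) (hT : UP T) :
    ∃ p, 0 < p ∧ ∃ N, Per S p N ∧ Per T p N := by
  obtain ⟨p, hp, N, h⟩ := hS
  obtain ⟨q, hq, M, h'⟩ := hT
  refine ⟨q * p, Nat.mul_pos hq hp, max N M, (h.mul q).mono (le_max_left _ _), ?_⟩
  rw [mul_comm]
  exact (h'.mul p).mono (le_max_right _ _)

theorem UP.or {S T : ℕ → Prop} (hS : UP S) (hT : UP T) : UP fun m => S m ∨ T m := by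
  obtain ⟨p, hp, N, h, h'⟩ := hS.common hT
  exact ⟨p, hp, N, fun m hm => or_congr (h m hm) (h' m hm)⟩

theorem UP.succ {S : ℕ → Prop} (hS : UP S) : UP fun m => S (m + 1) := by
  obtain ⟨p, hp, N, h⟩ := hS
  refine ⟨p, hp, N, fun m hm => ?_⟩
  have e : m + p + 1 = m + 1 + p := by ring
  simp only [e]
  exact h _ (by omega)

theorem UP.all (S : ℕ → ℕ → Prop) (v : ℕ) (h : ∀ u < v, UP (S u)) :
    ∃ p, 0 < p ∧ ∃ N, ∀ u < v, Per (S u) p N := by
  induction v with
  | zero => exact ⟨1, one_pos, 0, fun u hu => absurd hu (by omega)⟩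
  | succ v ih =>
    obtain ⟨p, hp, N, h1⟩ := ih fun u hu => h u (by omega)
    obtain ⟨q, hq, M, h2⟩ := h v (by omega)
    refine ⟨q * p, Nat.mul_pos hq hp, max N M, fun u hu => ?_⟩
    rcases Nat.lt_succ_iff_lt_or_eq.mp hu with c | c
    · exact ((h1 u c).mul q).mono (le_max_left _ _)
    · rw [c, mul_comm]
      exact (h2.mul p).mono (le_max_right _ _)

theorem UP.exists_lt (S : ℕ → ℕ → Prop) (v : ℕ) (h : ∀ u < v, UP (S u)) :
    UP fun m => ∃ u < v, S u m := by
  obtain ⟨p, hp, N, h1⟩ := UP.all S v h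
  refine ⟨p, hp, N, fun m hm => ?_⟩
  constructor
  · rintro ⟨u, hu, h2⟩
    exact ⟨u, hu, (h1 u hu m hm).mp h2⟩
  · rintro ⟨u, hu, h2⟩
    exact ⟨u, hu, (h1 u hu m hm).mpr h2⟩

/-- A predicate that propagates forward along a period is ultimately periodic. -/
theorem UP.of_forward {U : ℕ → Prop} {p N : ℕ} (hp : 0 < p)
    (h : ∀ m, N ≤ m → U m → U (m + p)) : UP U := by
  classical
  have it : ∀ k m, N ≤ m → U m → U (m + k * p) := by
    intro k m hm hU
    induction k with
    | zero => simpa using hU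
    | succ k ih =>
      have e : m + (k + 1) * p = (m + k * p) + p := by ring
      rw [e]
      exact h _ (by omega) ih
  have wit : ∀ r, ∃ w, (∃ m, N ≤ m ∧ m % p = r ∧ U m) → N ≤ w ∧ w % p = r ∧ U w := by
    intro r
    by_cases hr : ∃ m, N ≤ m ∧ m % p = r ∧ U m
    · obtain ⟨m, hm⟩ := hr
      exact ⟨m, fun _ => hm⟩
    · exact ⟨0, fun h' => absurd h' hr⟩
  choose w hw using wit
  refine ⟨p, hp, max N ((Finset.range p).sup w), fun m hm => ⟨fun hU => ?_, h m (by omega)⟩⟩
  obtain ⟨a1, a2, a3⟩ := hw (m % p) ⟨m + p, by omega, by simp, hU⟩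
  have hle : w (m % p) ≤ m := by
    have := Finset.le_sup (f := w) (Finset.mem_range.mpr (Nat.mod_lt m hp))
    omega
  obtain ⟨k, hk⟩ : p ∣ m - w (m % p) := (Nat.modEq_iff_dvd' hle).mp a2
  have e : m = w (m % p) + k * p := by rw [mul_comm]; omega
  rw [e]
  exact it k _ a1 a3

theorem UP.conv {S T : ℕ → Prop} (hS : UP S) (hT : UP T) :
    UP fun m => ∃ i ≤ m, S i ∧ T (m - i) := by
  obtain ⟨p, hp, N, h, h'⟩ := hS.common hT
  refine UP.of_forward (N := 2 * N) hp ?_
  rintro m hm ⟨i, hi, a, b⟩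
  rcases le_or_gt N i with c | c
  · refine ⟨i + p, by omega, (h i c).mpr a, ?_⟩
    rw [show m + p - (i + p) = m - i by omega]; exact b
  · refine ⟨i, by omega, a, ?_⟩
    rw [show m + p - i = m - i + p by omega]
    exact (h' _ (by omega)).mpr b

/-- A recursion with finite memory and ultimately periodic input. -/
theorem UP.memory {L G Z : ℕ → Prop} {n N : ℕ} (hG : UP G)
    (h : ∀ m, n ≤ m → N ≤ m → (L (m + 1) ↔ ¬ G m ∧ ¬ ∃ i < N, Z i ∧ L (m - i))) : UP L := by
  obtain ⟨q, hq, M, hq'⟩ := hG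
  set B := n + N + M + 1 with hB
  have key : ∀ k k' : ℕ, k < k' → (∀ i < N, L (B + k * q + i) ↔ L (B + k' * q + i)) → UP L := by
    intro k k' hk hw
    obtain ⟨d, rfl⟩ : ∃ d, k' = k + (d + 1) := ⟨k' - k - 1, by omega⟩
    have main : ∀ t, L (B + k * q + t + (d + 1) * q) ↔ L (B + k * q + t) := by
      intro t
      induction t using Nat.strong_induction_on with
      | _ t ih =>
        rcases lt_or_ge t N with c | c
        · rw [hw t c]
          have e : B + k * q + t + (d + 1) * q = B + (k + (d + 1)) * q + t := by ring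
          rw [e]
        · set m := B + k * q + t - 1 with hm
          have e1 : B + k * q + t = m + 1 := by omega
          have e2 : m + 1 + (d + 1) * q = m + (d + 1) * q + 1 := by ring
          rw [e1, e2, h _ (by omega) (by omega), h m (by omega) (by omega),
            hq'.mul (d + 1) m (by omega)]
          refine and_congr Iff.rfl (not_congr (exists_congr fun i => and_congr_right fun hi =>
            and_congr Iff.rfl ?_))
          have := ih (t - 1 - i) (by omega)
          rw [show B + k * q + (t - 1 - i) = m - i by omega] at this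
          rw [show m + (d + 1) * q - i = m - i + (d + 1) * q by omega]
          exact this
    refine ⟨(d + 1) * q, Nat.mul_pos (by omega) hq, B + k * q, fun m hm => ?_⟩
    have := main (m - (B + k * q))
    rwa [show B + k * q + (m - (B + k * q)) = m by omega] at this
  obtain ⟨k, k', hne, he⟩ := Finite.exists_ne_map_eq_of_infinite
    (fun k : ℕ => fun i : Fin N => L (B + k * q + i))
  have hw : ∀ i < N, L (B + k * q + i) ↔ L (B + k' * q + i) := fun i hi =>
    Iff.of_eq (congrFun he ⟨i, hi⟩)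
  rcases lt_or_gt_of_ne hne with c | c
  · exact key k k' c hw
  · exact key k' k c fun i hi => (hw i hi).symm

theorem UP.feedback {L F Z : ℕ → Prop} {n : ℕ} (hF : UP F) (hZ : UP Z)
    (h : ∀ m, n ≤ m → (L (m + 1) ↔ ¬ F m ∧ ¬ ∃ i ≤ m, Z i ∧ L (m - i))) : UP L := by
  obtain ⟨p, hp, N, hN⟩ := hZ
  have hP : UP fun m => ∃ i ≤ m, N ≤ i ∧ Z i ∧ L (m - i) := by
    refine UP.of_forward (N := 0) hp ?_
    rintro m - ⟨i, hi, a, b, c⟩
    refine ⟨i + p, by omega, by omega, (hN i a).mpr b, ?_⟩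
    rw [show m + p - (i + p) = m - i by omega]; exact c
  refine UP.memory (Z := Z) (n := n) (N := N) (hF.or hP) ?_
  intro m hm hm'
  rw [h m hm]
  constructor
  · rintro ⟨a, b⟩
    refine ⟨?_, ?_⟩
    · rintro (c | ⟨i, hi, -, c⟩)
      · exact a c
      · exact b ⟨i, hi, c⟩
    · rintro ⟨i, hi, c⟩
      exact b ⟨i, by omega, c⟩
  · rintro ⟨a, b⟩
    refine ⟨fun c => a (Or.inl c), ?_⟩
    rintro ⟨i, hi, c⟩
    rcases lt_or_ge i N with d | d
    · exact b ⟨i, d, c⟩
    · exact a (Or.inr ⟨i, hi, d, c⟩)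

theorem levels (a : ℕ → ℕ) (n : ℕ)
    (h : ∀ m, n ≤ m → a (m + 1) = sInf {k : ℕ | ∀ i : ℕ, i ≤ m → a i + a (m - i) ≠ k})
    (hZ : UP fun m => a m = 0) (v : ℕ) : UP fun m => a m = v := by
  induction v using Nat.strong_induction_on with
  | _ v ih =>
    rcases Nat.eq_zero_or_pos v with rfl | hv
    · exact hZ
    have hF : UP fun m => (∃ u < v, a (m + 1) = u) ∨
        ∃ u < v, ∃ i ≤ m, (0 < u ∧ a i = u) ∧ a (m - i) = v - u := by
      refine (UP.exists_lt (fun u m => a (m + 1) = u) v fun u hu => (ih u hu).succ).or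
        (UP.exists_lt (fun u m => ∃ i ≤ m, (0 < u ∧ a i = u) ∧ a (m - i) = v - u) v ?_)
      intro u hu
      rcases Nat.eq_zero_or_pos u with rfl | hu0
      · exact ⟨1, one_pos, 0, fun m _ => by simp⟩
      · refine UP.conv (S := fun i => 0 < u ∧ a i = u) (T := fun i => a i = v - u) ?_
          (ih _ (by omega))
        simpa [hu0] using ih u hu
    refine UP.feedback (n := n) hF hZ ?_
    intro m hm
    have hne : {k : ℕ | ∀ i : ℕ, i ≤ m → a i + a (m - i) ≠ k}.Nonempty := by
      refine ⟨(Finset.range (m + 1)).sup (fun i => a i + a (m - i)) + 1, fun i hi => ?_⟩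
      have : a i + a (m - i) ≤ (Finset.range (m + 1)).sup (fun i => a i + a (m - i)) :=
        Finset.le_sup (f := fun i => a i + a (m - i))
          (Finset.mem_range.mpr (Nat.lt_succ_of_le hi))
      omega
    have hmem := Nat.sInf_mem hne
    rw [← h m hm] at hmem
    constructor
    · intro e
      rw [e] at hmem
      refine ⟨?_, ?_⟩
      · rintro (⟨u, hu, c⟩ | ⟨u, hu, i, hi, ⟨-, c⟩, d⟩)
        · omega
        · exact hmem i hi (by omega)
      · rintro ⟨i, hi, c, d⟩
        exact hmem i hi (by omega)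
    · rintro ⟨c, d⟩
      have h1 : v ≤ a (m + 1) := by
        by_contra hn
        exact c (Or.inl ⟨_, not_le.mp hn, rfl⟩)
      have h2 : a (m + 1) ≤ v := by
        rw [h m hm]
        apply Nat.sInf_le
        intro i hi e
        rcases Nat.eq_zero_or_pos (a i) with z | z
        · exact d ⟨i, hi, z, by omega⟩
        rcases Nat.eq_zero_or_pos (a (m - i)) with z' | z'
        · refine d ⟨m - i, by omega, z', ?_⟩
          rw [show m - (m - i) = i by omega]
          omega
        · exact c (Or.inr ⟨a i, by omega, i, hi, ⟨z, rfl⟩, by omega⟩)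
      omega

end Pool.Agent.Lib.MP_495f0d_co
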